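import Pool.Agent.Work.MP_7453a1_nt_norm.Defs

set_option autoImplicit false

/-!
The sequence of best approximation points for an arbitrary norm on `ℝⁿ`: existence, infinitely
many terms, and the exclusion property for large indices.
-/

namespace Pool.Agent.Work.MP_7453a1_nt_norm

open Filter Topology
open scoped ENNReal

variable {n : ℕ}

/-- Integer points. -/
abbrev Pt (n : ℕ) : Type := ℤ × (Fin n → ℤ)

/-- The error vector of an integer point. -/
noncomputable def ev (Θ : Fin n → ℝ) : Pt n →+ (Fin n → ℝ) :=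
  AddMonoidHom.mk' (fun z i => (z.1 : ℝ) * Θ i - z.2 i)
    (by intro a b; ext i; simp; ring)

/-- The length of the error vector. -/
noncomputable def er (N : Seminorm ℝ (Fin n → ℝ)) (Θ : Fin n → ℝ) (z : Pt n) : ℝ := N (ev Θ z)

variable {N : Seminorm ℝ (Fin n → ℝ)} {Θ : Fin n → ℝ}

lemma er_eq_err (z : Pt n) : er N Θ z = err N Θ z.1 z.2 := rfl

lemma er_nonneg (z : Pt n) : 0 ≤ er N Θ z := apply_nonneg N _

lemma er_neg (z : Pt n) : er N Θ (-z) = er N Θ z := by
  unfold er; rw [map_neg, map_neg_eq_map]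

lemma er_sub_le (z w : Pt n) : er N Θ (z - w) ≤ er N Θ z + er N Θ w := by
  unfold er; rw [map_sub]; exact map_sub_le_add N _ _

/-- Upper bound of a seminorm by the sup norm. -/
lemma upper (N : Seminorm ℝ (Fin n → ℝ)) : ∃ C : ℝ, 0 < C ∧ ∀ x, N x ≤ C * ‖x‖ := by
  classical
  refine ⟨1 + ∑ i, N (Pi.single i 1), by positivity, fun x => ?_⟩
  have h1 : x = ∑ i, x i • (Pi.single i (1 : ℝ) : Fin n → ℝ) := by
    ext j
    simp [Finset.sum_apply, Pi.single_apply]
  calc N x = N (∑ i, x i • (Pi.single i (1 : ℝ) : Fin n → ℝ)) := by rw [← h1]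
    _ ≤ ∑ i, N (x i • (Pi.single i (1 : ℝ) : Fin n → ℝ)) := by
        exact Finset.le_sum_of_subadditive N (map_zero N).le (map_add_le_add N) _ _
    _ ≤ ∑ i, ‖x‖ * N (Pi.single i 1) := by
        refine Finset.sum_le_sum fun i _ => ?_
        rw [map_smul_eq_mul]
        exact mul_le_mul_of_nonneg_right (norm_le_pi_norm x i) (apply_nonneg N _)
    _ = (∑ i, N (Pi.single i 1)) * ‖x‖ := by rw [← Finset.mul_sum, mul_comm]
    _ ≤ _ := by
        have := norm_nonneg x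
        nlinarith

lemma continuous_N (N : Seminorm ℝ (Fin n → ℝ)) : Continuous N := by
  obtain ⟨C, hC, h⟩ := upper N
  rw [Metric.continuous_iff]
  intro x ε hε
  refine ⟨ε / C, by positivity, fun y hy => ?_⟩
  rw [dist_eq_norm] at hy
  have h1 := h (y - x)
  have h2 : C * ‖y - x‖ < ε := by
    rw [lt_div_iff₀ hC] at hy; linarith
  rw [Real.dist_eq]
  exact lt_of_le_of_lt (abs_sub_map_le_sub N y x) (lt_of_le_of_lt h1 h2)

/-- Lower bound of a norm by the sup norm. -/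
lemma lower (hN : IsNorm N) : ∃ c : ℝ, 0 < c ∧ ∀ x, c * ‖x‖ ≤ N x := by
  rcases Nat.eq_zero_or_pos n with h0 | h0
  · subst h0
    refine ⟨1, one_pos, fun x => ?_⟩
    have : x = 0 := Subsingleton.elim _ _
    rw [this, norm_zero, map_zero, mul_zero]
  · have hne : (Metric.sphere (0 : Fin n → ℝ) 1).Nonempty := by
      have : Nontrivial (Fin n → ℝ) := by
        have : Nonempty (Fin n) := ⟨⟨0, h0⟩⟩
        infer_instance
      exact NormedSpace.sphere_nonempty.mpr zero_le_one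
    obtain ⟨y, hy, hmin⟩ := (isCompact_sphere (0 : Fin n → ℝ) 1).exists_isMinOn hne
      (continuous_N N).continuousOn
    have hy1 : ‖y‖ = 1 := by simpa using hy
    have hy0 : 0 < N y := by
      refine lt_of_le_of_ne (apply_nonneg N y) fun h => ?_
      have := hN y h.symm
      rw [this] at hy1; simp at hy1
    refine ⟨N y, hy0, fun x => ?_⟩
    by_cases hx : x = 0
    · rw [hx]; simp
    · have hx0 : 0 < ‖x‖ := norm_pos_iff.mpr hx
      have h1 : ‖x‖⁻¹ • x ∈ Metric.sphere (0 : Fin n → ℝ) 1 := by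
        simp [norm_smul, inv_mul_cancel₀ hx0.ne']
      have h2 : N y ≤ N (‖x‖⁻¹ • x) := hmin h1
      rw [map_smul_eq_mul, norm_inv, norm_norm] at h2
      calc N y * ‖x‖ ≤ ‖x‖⁻¹ * N x * ‖x‖ := mul_le_mul_of_nonneg_right h2 hx0.le
        _ = N x := by field_simp

/-- Nonzero integer vectors have norm bounded below. -/
lemma int_lower (hN : IsNorm N) :
    ∃ r : ℝ, 0 < r ∧ ∀ p : Fin n → ℤ, p ≠ 0 → r ≤ N (fun i => (p i : ℝ)) := by
  obtain ⟨c, hc, h⟩ := lower hN
  refine ⟨c, hc, fun p hp => ?_⟩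
  obtain ⟨i, hi⟩ : ∃ i, p i ≠ 0 := by
    by_contra hcon; push Not at hcon; exact hp (funext hcon)
  have h1 : (1 : ℝ) ≤ ‖(fun i => (p i : ℝ))‖ := by
    calc (1 : ℝ) ≤ |(p i : ℝ)| := by exact_mod_cast Int.one_le_abs hi
      _ = ‖(p i : ℝ)‖ := (Real.norm_eq_abs _).symm
      _ ≤ _ := norm_le_pi_norm (fun i => (p i : ℝ)) i
  nlinarith [h (fun i => (p i : ℝ))]

/-- Best approximation points with positive first coordinate. -/
def BestPt (N : Seminorm ℝ (Fin n → ℝ)) (Θ : Fin n → ℝ) (z : Pt n) : Prop :=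
  0 < z.1 ∧ ∀ w : Pt n, |w.1| ≤ z.1 → er N Θ w ≤ er N Θ z → w = 0 ∨ w = z ∨ w = -z

lemma isBest_iff (z : Pt n) (hz : 0 < z.1) : IsBest N Θ z.1 z.2 ↔ BestPt N Θ z := by
  unfold IsBest BestPt
  constructor
  · rintro ⟨_, h⟩
    refine ⟨hz, fun w hw hN => ?_⟩
    rcases h w.1 w.2 (by rwa [abs_of_pos hz]) hN with ⟨h1, h2⟩ | ⟨h1, h2⟩ | ⟨h1, h2⟩
    · exact Or.inl (Prod.ext h1 h2)
    · exact Or.inr (Or.inl (Prod.ext h1 h2))
    · exact Or.inr (Or.inr (Prod.ext h1 h2))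
  · rintro ⟨_, h⟩
    refine ⟨hz.ne', fun q p hq hd => ?_⟩
    rw [abs_of_pos hz] at hq
    rcases h (q, p) hq hd with h1 | h1 | h1
    · exact Or.inl ⟨congrArg Prod.fst h1, congrArg Prod.snd h1⟩
    · exact Or.inr (Or.inl ⟨congrArg Prod.fst h1, congrArg Prod.snd h1⟩)
    · exact Or.inr (Or.inr ⟨congrArg Prod.fst h1, congrArg Prod.snd h1⟩)

lemma isBest_neg {q : ℤ} {p : Fin n → ℤ} (h : IsBest N Θ q p) : IsBest N Θ (-q) (-p) := by
  obtain ⟨h0, h⟩ := h
  refine ⟨neg_ne_zero.mpr h0, fun q' p' hq hd => ?_⟩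
  have e : err N Θ (-q) (-p) = err N Θ q p := er_neg (N := N) (Θ := Θ) (q, p)
  rw [e] at hd
  rw [abs_neg] at hq
  rcases h q' p' hq hd with h | h | h
  · exact Or.inl h
  · right; right; simpa using h
  · right; left; exact h

lemma bestDen_iff (m : ℕ) : IsBestDenominator N Θ m ↔ ∃ z : Pt n, BestPt N Θ z ∧ z.1 = m := by
  constructor
  · rintro ⟨q, p, h, hm⟩
    rcases lt_or_gt_of_ne h.1 with h1 | h1
    · have h2 : (0 : ℤ) < (-q, -p).1 := by simp only; omega
      exact ⟨(-q, -p), (isBest_iff (-q, -p) h2).mp (isBest_neg h), by simp only; omega⟩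
    · have h2 : (0 : ℤ) < (q, p).1 := h1
      exact ⟨(q, p), (isBest_iff (q, p) h2).mp h, by simp only; omega⟩
  · rintro ⟨z, hz, hm⟩
    exact ⟨z.1, z.2, (isBest_iff z hz.1).mpr hz, by omega⟩

/-- Two integer points with the same first coordinate and small errors coincide. -/
lemma eq_of_small {r₀ : ℝ} (hr₀ : ∀ p : Fin n → ℤ, p ≠ 0 → r₀ ≤ N (fun i => (p i : ℝ)))
    {z w : Pt n} (h : z.1 = w.1) (hs : er N Θ z + er N Θ w < r₀) : z = w := by
  by_contra hne
  have h1 : w.2 - z.2 ≠ 0 := by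
    intro h2
    exact hne (Prod.ext h (sub_eq_zero.mp h2).symm)
  have h3 := hr₀ _ h1
  have h4 : (fun i => (((w.2 - z.2) i : ℤ) : ℝ)) = ev Θ (z - w) := by
    ext i
    have : ((z.1 - w.1 : ℤ) : ℝ) = 0 := by rw [h]; simp
    simp [ev, this]

  rw [h4] at h3
  exact absurd (er_sub_le (N := N) (Θ := Θ) z w) (not_le.mpr (lt_of_lt_of_le hs h3))

/-- If some point has small error then there is a best approximation point. -/
lemma exists_best {r₀ r : ℝ} (hr₀ : ∀ p : Fin n → ℤ, p ≠ 0 → r₀ ≤ N (fun i => (p i : ℝ)))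
    (hr : r ≤ r₀ / 2) {z : Pt n} (hz : z.1 ≠ 0) (hN : er N Θ z < r) :
    ∃ w : Pt n, BestPt N Θ w ∧ w.1 ≤ |z.1| ∧ er N Θ w < r := by
  classical
  have hex : ∃ q : ℕ, 0 < q ∧ ∃ a : Fin n → ℤ, er N Θ ((q : ℤ), a) < r := by
    rcases lt_or_gt_of_ne hz with h | h
    · refine ⟨(-z.1).toNat, by omega, -z.2, ?_⟩
      rw [Int.toNat_of_nonneg (by omega)]
      have := er_neg (N := N) (Θ := Θ) z
      rw [show ((-z.1, -z.2) : Pt n) = -z from rfl, this]
      exact hN
    · refine ⟨z.1.toNat, by omega, z.2, ?_⟩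
      rw [Int.toNat_of_nonneg (by omega)]
      exact hN
  obtain ⟨hq0, a, hab⟩ := Nat.find_spec hex
  have hmin : ∀ w : Pt n, w.1 ≠ 0 → er N Θ w < r → ((Nat.find hex : ℕ) : ℤ) ≤ |w.1| := by
    intro w hw hwN
    have : Nat.find hex ≤ w.1.natAbs := by
      apply Nat.find_min' hex
      refine ⟨by omega, ?_⟩
      rcases lt_or_gt_of_ne hw with h | h
      · refine ⟨-w.2, ?_⟩
        rw [show ((w.1.natAbs : ℕ) : ℤ) = -w.1 by omega,
          show ((-w.1, -w.2) : Pt n) = -w from rfl, er_neg]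
        exact hwN
      · refine ⟨w.2, ?_⟩
        rw [show ((w.1.natAbs : ℕ) : ℤ) = w.1 by omega]
        exact hwN
    rw [Int.abs_eq_natAbs]
    exact_mod_cast this
  set q : ℤ := ((Nat.find hex : ℕ) : ℤ) with hq
  have hq0' : 0 < q := by rw [hq]; exact_mod_cast hq0
  have huniq : ∀ w : Pt n, w.1 = q → er N Θ w ≤ er N Θ (q, a) → w = (q, a) := by
    intro w hw hwN
    exact eq_of_small hr₀ hw (by linarith)
  refine ⟨(q, a), ⟨hq0', fun w hw hwN => ?_⟩, hmin z hz hN, hab⟩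
  by_cases hw0 : w.1 = 0
  · left
    refine eq_of_small (N := N) (Θ := Θ) hr₀ hw0 ?_
    have h1 : er N Θ (0 : Pt n) = 0 := by unfold er; rw [map_zero, map_zero]
    have h2 := er_nonneg (N := N) (Θ := Θ) w
    rw [h1]; linarith
  · right
    have h6 := hmin w hw0 (by linarith)
    have h7 : |w.1| = q := le_antisymm hw h6
    rcases abs_eq hq0'.le |>.mp h7 with h8 | h8
    · left; exact huniq w h8 hwN
    · right
      have h9 := huniq (-w) (by simp; omega) (by rw [er_neg]; exact hwN)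
      rw [← h9, neg_neg]

/-- Dirichlet's theorem. -/
lemma dirichlet (N : Seminorm ℝ (Fin n → ℝ)) (Θ : Fin n → ℝ) {r : ℝ} (hr : 0 < r) :
    ∃ z : Pt n, z.1 ≠ 0 ∧ er N Θ z < r := by
  obtain ⟨C, hC, hup⟩ := upper N
  obtain ⟨K, hK⟩ := exists_nat_gt (C / r)
  have hK0 : 0 < K := by
    have : (0 : ℝ) < K := lt_trans (by positivity) hK
    exact_mod_cast this
  have hKr : (0 : ℝ) < K := by exact_mod_cast hK0
  let F : ℕ → (Fin n → ℕ) := fun q i => ⌊Int.fract ((q : ℝ) * Θ i) * K⌋₊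
  have hF : ∀ q ∈ Finset.range (K ^ n + 1), F q ∈ Fintype.piFinset fun _ : Fin n => Finset.range K := by
    intro q _
    rw [Fintype.mem_piFinset]
    intro i
    rw [Finset.mem_range, Nat.floor_lt (mul_nonneg (Int.fract_nonneg _) hKr.le)]
    have := Int.fract_lt_one ((q : ℝ) * Θ i)
    nlinarith
  obtain ⟨i, _, j, _, hij, hFij⟩ := Finset.exists_ne_map_eq_of_card_lt_of_maps_to
    (s := Finset.range (K ^ n + 1)) (t := Fintype.piFinset fun _ : Fin n => Finset.range K)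
    (by rw [Fintype.card_piFinset]; simp) hF
  have close : ∀ u v : ℝ, 0 ≤ u → 0 ≤ v → ⌊u * K⌋₊ = ⌊v * K⌋₊ → |u - v| * K ≤ 1 := by
    intro u v hu hv h
    have h1 := Nat.floor_le (mul_nonneg hu hKr.le)
    have h2 := Nat.lt_floor_add_one (u * K)
    have h3 := Nat.floor_le (mul_nonneg hv hKr.le)
    have h4 := Nat.lt_floor_add_one (v * K)
    rw [h] at h1 h2
    have h5 : |(u - v) * K| < 1 := by
      rw [abs_lt]; constructor <;> nlinarith
    rw [abs_mul, abs_of_pos hKr] at h5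
    exact h5.le
  refine ⟨((i : ℤ) - j, fun t => ⌊(i : ℝ) * Θ t⌋ - ⌊(j : ℝ) * Θ t⌋), ?_, ?_⟩
  · simp only [ne_eq, sub_eq_zero]
    exact_mod_cast hij
  · have h1 : ‖ev Θ ((i : ℤ) - j, fun t => ⌊(i : ℝ) * Θ t⌋ - ⌊(j : ℝ) * Θ t⌋)‖ ≤ 1 / K := by
      rw [pi_norm_le_iff_of_nonneg (by positivity)]
      intro t
      have e : ev Θ ((i : ℤ) - j, fun t => ⌊(i : ℝ) * Θ t⌋ - ⌊(j : ℝ) * Θ t⌋) t
          = Int.fract ((i : ℝ) * Θ t) - Int.fract ((j : ℝ) * Θ t) := by
        simp only [ev, AddMonoidHom.mk'_apply]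
        push_cast [Int.fract]; ring
      rw [e, Real.norm_eq_abs, le_div_iff₀ hKr]
      exact close _ _ (Int.fract_nonneg _) (Int.fract_nonneg _) (congrFun hFij t)
    have h2 := hup (ev Θ ((i : ℤ) - j, fun t => ⌊(i : ℝ) * Θ t⌋ - ⌊(j : ℝ) * Θ t⌋))
    refine lt_of_le_of_lt h2 (lt_of_le_of_lt (mul_le_mul_of_nonneg_left h1 hC.le) ?_)
    rw [div_lt_iff₀ hr] at hK
    rw [mul_one_div, div_lt_iff₀ hKr]
    linarith

/-- Points with bounded nonzero first coordinate have errors bounded below. -/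
lemma errors_bdd (hN : IsNorm N) (hΘ : Admissible Θ) (K : ℕ) :
    ∃ r : ℝ, 0 < r ∧ ∀ z : Pt n, 0 < z.1 → z.1 ≤ K → r ≤ er N Θ z := by
  obtain ⟨c, hc, hlow⟩ := lower hN
  induction K with
  | zero => exact ⟨1, one_pos, fun z h1 h2 => by simp at h2; omega⟩
  | succ K ih =>
    obtain ⟨r, hr, h⟩ := ih
    obtain ⟨i, hi⟩ := hΘ ((K + 1 : ℕ) : ℤ) (by positivity)
      (fun i => round ((((K + 1 : ℕ) : ℤ) : ℝ) * Θ i))
    set s : ℝ := |(((K + 1 : ℕ) : ℤ) : ℝ) * Θ i - round ((((K + 1 : ℕ) : ℤ) : ℝ) * Θ i)| with hs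
    have hs0 : 0 < s := abs_pos.mpr (sub_ne_zero.mpr hi)
    refine ⟨min r (c * s), lt_min hr (by positivity), fun z h1 h2 => ?_⟩
    by_cases hz : z.1 ≤ K
    · exact (min_le_left _ _).trans (h z h1 hz)
    · have hz' : z.1 = ((K + 1 : ℕ) : ℤ) := by push_cast at h2 ⊢; omega
      refine (min_le_right _ _).trans ?_
      refine le_trans (mul_le_mul_of_nonneg_left ?_ hc.le) (hlow (ev Θ z))
      refine le_trans ?_ (norm_le_pi_norm (ev Θ z) i)
      have e : ev Θ z i = (((K + 1 : ℕ) : ℤ) : ℝ) * Θ i - z.2 i := by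
        rw [← hz']; rfl
      rw [e, Real.norm_eq_abs]
      exact round_le _ _

lemma infinite (hN : IsNorm N) (hΘ : Admissible Θ) :
    {m : ℕ | IsBestDenominator N Θ m}.Infinite := by
  obtain ⟨r₀, hr₀, hr₁⟩ := int_lower hN
  rw [Set.infinite_iff_exists_gt]
  intro K
  obtain ⟨r, hr, h⟩ := errors_bdd hN hΘ K
  obtain ⟨z, hz, hzN⟩ := dirichlet N Θ (lt_min hr (half_pos hr₀))
  obtain ⟨w, hw, _, hwN⟩ := exists_best hr₁ (min_le_right _ _) hz hzN
  refine ⟨w.1.toNat, ?_, ?_⟩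
  · show IsBestDenominator N Θ w.1.toNat
    rw [bestDen_iff]
    exact ⟨w, hw, by rw [Int.toNat_of_nonneg hw.1.le]⟩
  · by_contra hcon
    have h1 := h w hw.1 (by omega)
    have := hwN.trans_le (min_le_left _ _)
    linarith

/-- A choice of the best approximation points. -/
lemma exists_seq (hN : IsNorm N) (hΘ : Admissible Θ) :
    ∃ z : ℕ → Pt n, ∀ k, BestPt N Θ (z k) ∧ (z k).1 = Nat.nth (IsBestDenominator N Θ) k := by
  have h : ∀ k, ∃ z : Pt n, BestPt N Θ z ∧ z.1 = Nat.nth (IsBestDenominator N Θ) k := by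
    intro k
    exact (bestDen_iff _).mp (Nat.nth_mem_of_infinite (infinite hN hΘ) k)
  choose z hz using h
  exact ⟨z, hz⟩

section

variable {z : ℕ → Pt n}

lemma strictMono_z (hN : IsNorm N) (hΘ : Admissible Θ)
    (hz : ∀ k, BestPt N Θ (z k) ∧ (z k).1 = Nat.nth (IsBestDenominator N Θ) k) {k l : ℕ}
    (h : k < l) : (z k).1 < (z l).1 := by
  rw [(hz k).2, (hz l).2]
  exact_mod_cast Nat.nth_strictMono (infinite hN hΘ) h

lemma er_lt (hN : IsNorm N) (hΘ : Admissible Θ)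
    (hz : ∀ k, BestPt N Θ (z k) ∧ (z k).1 = Nat.nth (IsBestDenominator N Θ) k) {k l : ℕ}
    (h : k < l) : er N Θ (z l) < er N Θ (z k) := by
  by_contra hcon
  push Not at hcon
  have h1 := strictMono_z hN hΘ hz h
  have h2 := (hz k).1.1
  rcases (hz l).1.2 (z k) (by rw [abs_of_pos h2]; exact h1.le) hcon with h3 | h3 | h3
  · rw [h3] at h2; simp at h2
  · rw [h3] at h1; exact lt_irrefl _ h1
  · rw [h3] at h2
    have := (hz l).1.1
    simp at h2
    omega

/-- Below the `k`-th denominator. -/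
lemma below (hz : ∀ k, BestPt N Θ (z k) ∧ (z k).1 = Nat.nth (IsBestDenominator N Θ) k) (k : ℕ)
    (w : Pt n) (hw : w ≠ 0) (hx : |w.1| < (z k).1) : er N Θ (z k) < er N Θ w := by
  by_contra hcon
  push Not at hcon
  have h2 := (hz k).1.1
  rcases (hz k).1.2 w hx.le hcon with h3 | h3 | h3
  · exact hw h3
  · rw [h3, abs_of_pos h2] at hx; exact lt_irrefl _ hx
  · rw [h3] at hx
    simp [abs_of_pos h2] at hx

/-- Between consecutive denominators. -/
lemma between (hN : IsNorm N) (hΘ : Admissible Θ)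
    (hz : ∀ k, BestPt N Θ (z k) ∧ (z k).1 = Nat.nth (IsBestDenominator N Θ) k) (k : ℕ)
    {r₀ : ℝ} (hr₀ : ∀ p : Fin n → ℤ, p ≠ 0 → r₀ ≤ N (fun i => (p i : ℝ)))
    (hk : er N Θ (z k) ≤ r₀ / 2) (w : Pt n) (hw : w ≠ 0) (hx : |w.1| < (z (k + 1)).1) :
    er N Θ (z k) ≤ er N Θ w := by
  classical
  by_contra hcon
  push Not at hcon
  have hw1 : w.1 ≠ 0 := by
    intro h0
    exact absurd (below hz k w hw (by rw [h0, abs_zero]; exact (hz k).1.1)) (not_lt.mpr hcon.le)
  obtain ⟨u, hu, hu1, hu2⟩ := exists_best hr₀ hk hw1 hcon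
  have h1 : (z k).1 < u.1 := by
    by_contra h
    push Not at h
    rcases lt_or_eq_of_le h with h | h
    · have := below hz k u (by rintro rfl; exact lt_irrefl _ hu.1) (by rwa [abs_of_pos hu.1])
      linarith
    · rcases (hz k).1.2 u (by rw [abs_of_pos hu.1]; exact h.le) hu2.le with h3 | h3 | h3
      · rw [h3] at hu; exact lt_irrefl _ hu.1
      · rw [h3] at hu2; exact lt_irrefl _ hu2
      · rw [h3, er_neg] at hu2; exact lt_irrefl _ hu2
  have h2 : u.1 < (z (k + 1)).1 := lt_of_le_of_lt hu1 hx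
  have h3 : IsBestDenominator N Θ u.1.toNat := by
    rw [bestDen_iff]
    exact ⟨u, hu, by rw [Int.toNat_of_nonneg hu.1.le]⟩
  obtain ⟨m, hm⟩ : ∃ m, Nat.nth (IsBestDenominator N Θ) m = u.1.toNat :=
    ⟨_, Nat.nth_count h3⟩
  have h4 : ((Nat.nth (IsBestDenominator N Θ) m : ℕ) : ℤ) = u.1 := by
    rw [hm, Int.toNat_of_nonneg hu.1.le]
  rw [← (hz m).2] at h4
  have h5 : k < m := by
    by_contra h
    push Not at h
    rcases lt_or_eq_of_le h with h | h
    · have := strictMono_z hN hΘ hz h; omega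
    · rw [h] at h4; omega
  have h6 : m < k + 1 := by
    by_contra h
    push Not at h
    rcases lt_or_eq_of_le h with h | h
    · have := strictMono_z hN hΘ hz h; omega
    · rw [← h] at h4; omega
  omega

/-- From some point on the errors are small. -/
lemma eventually_small (hN : IsNorm N) (hΘ : Admissible Θ)
    (hz : ∀ k, BestPt N Θ (z k) ∧ (z k).1 = Nat.nth (IsBestDenominator N Θ) k) {r : ℝ}
    (hr : 0 < r) : ∃ k₀, ∀ k, k₀ ≤ k → er N Θ (z k) ≤ r := by
  classical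
  obtain ⟨w, hw, hwN⟩ := dirichlet N Θ hr
  refine ⟨w.1.natAbs, fun k hk => ?_⟩
  by_contra hcon
  push Not at hcon
  have h1 : ∀ j : ℕ, (j : ℤ) < (z j).1 := by
    intro j
    induction j with
    | zero => exact_mod_cast (hz 0).1.1
    | succ j ih =>
      have := strictMono_z hN hΘ hz (show j < j + 1 by omega)
      push_cast
      omega
  have h2 := h1 k
  have h3 := below hz k w (by rintro rfl; simp at hw) (by rw [Int.abs_eq_natAbs]; omega)
  linarith

end

/-- **The frame.** For a norm `N` on `ℝⁿ` and `Θ` with (∗) there are integer points `z k` whose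
first coordinates are the best approximation denominators from some index `ν₀` on, with decreasing
errors, and every nonzero integer point `w` with `|w.1| < (z (k + 1)).1` has an error at least as
large as that of `z k`. -/
theorem frame (hN : IsNorm N) (hΘ : Admissible Θ) :
    ∃ (ν₀ : ℕ) (z : ℕ → Pt n), 1 ≤ ν₀ ∧ (∀ k, (z k).1 = M N Θ (ν₀ + k)) ∧ (∀ k, 0 < (z k).1) ∧
      (∀ k l, k < l → (z k).1 < (z l).1) ∧ (∀ k l, k < l → er N Θ (z l) < er N Θ (z k)) ∧
      (∀ k, 0 < er N Θ (z k)) ∧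
      ∀ (k : ℕ) (w : Pt n), w ≠ 0 → |w.1| < (z (k + 1)).1 → er N Θ (z k) ≤ er N Θ w := by
  obtain ⟨r₀, hr₀, hr₁⟩ := int_lower hN
  obtain ⟨z, hz⟩ := exists_seq hN hΘ
  obtain ⟨k₀, hk₀⟩ := eventually_small hN hΘ hz (half_pos hr₀)
  refine ⟨k₀ + 1, fun k => z (k₀ + k), by omega, fun k => ?_, fun k => (hz _).1.1,
    fun k l h => strictMono_z hN hΘ hz (by omega), fun k l h => er_lt hN hΘ hz (by omega),
    fun k => ?_, fun k w hw hx => between hN hΘ hz (k₀ + k) hr₁ (hk₀ _ (by omega)) w hw hx⟩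
  · rw [(hz _).2, M, show k₀ + 1 + k - 1 = k₀ + k by omega]
  · exact lt_of_le_of_lt (er_nonneg _) (er_lt hN hΘ hz (show k₀ + k < k₀ + k + 1 by omega))

lemma M_mono (hN : IsNorm N) (hΘ : Admissible Θ) {a b : ℕ} (h : a ≤ b) : M N Θ a ≤ M N Θ b :=
  Nat.nth_monotone (infinite hN hΘ) (by omega)

/-- Exponential growth gives a lower bound for `G`. -/
theorem le_G_of_growth {t c : ℝ} (ht : 0 < t) (hc : 0 < c)
    (h : ∀ᶠ ν in atTop, c * t ^ ν ≤ M N Θ ν) : ENNReal.ofReal t ≤ G N Θ := by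
  have hlim : Tendsto (fun ν : ℕ => ENNReal.ofReal (c ^ (1 / (ν : ℝ)) * t)) atTop
      (𝓝 (ENNReal.ofReal t)) := by
    apply ENNReal.tendsto_ofReal
    have h1 : Tendsto (fun ν : ℕ => c ^ (1 / (ν : ℝ))) atTop (𝓝 (c ^ (0 : ℝ))) := by
      apply Tendsto.rpow tendsto_const_nhds tendsto_one_div_atTop_nhds_zero_nat
      left
      positivity
    rw [Real.rpow_zero] at h1
    simpa using h1.mul_const t
  rw [← hlim.liminf_eq]
  unfold G
  refine liminf_le_liminf ?_
  filter_upwards [eventually_ge_atTop 1, h] with ν hν hM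
  apply ENNReal.ofReal_le_ofReal
  have hν0 : (0 : ℝ) < ν := by exact_mod_cast hν
  calc c ^ (1 / (ν : ℝ)) * t = (c * t ^ ν) ^ (1 / (ν : ℝ)) := by
        rw [Real.mul_rpow (by positivity) (by positivity)]
        congr 1
        rw [one_div, Real.pow_rpow_inv_natCast ht.le (by omega)]
    _ ≤ (M N Θ ν : ℝ) ^ (1 / (ν : ℝ)) := Real.rpow_le_rpow (by positivity) hM (by positivity)

end Pool.Agent.Work.MP_7453a1_nt_norm
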