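import Mathlib

set_option autoImplicit false

/-!
Best simultaneous approximations (`m = 1`) with respect to an arbitrary norm on `ℝⁿ`.
-/

namespace Pool.Agent.Work.MP_7453a1_nt_norm

open Filter
open scoped ENNReal

variable {n : ℕ}

/-- The seminorm `N` on `ℝⁿ` is a norm. -/
def IsNorm (N : Seminorm ℝ (Fin n → ℝ)) : Prop := ∀ x, N x = 0 → x = 0

/-- The `N`-length of the vector `q Θ - p`, for an integer `q` and an integer vector `p`. -/
noncomputable def err (N : Seminorm ℝ (Fin n → ℝ)) (Θ : Fin n → ℝ) (q : ℤ) (p : Fin n → ℤ) : ℝ :=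
  N (fun i => (q : ℝ) * Θ i - p i)

/-- Condition (∗): `q Θ` is not an integer vector for any nonzero integer `q`. -/
def Admissible (Θ : Fin n → ℝ) : Prop :=
  ∀ q : ℤ, q ≠ 0 → ∀ p : Fin n → ℤ, ∃ i, (q : ℝ) * Θ i ≠ p i

/-- `(q, p)` with `q ≠ 0` is a best approximation vector: the only integer points `(q', p')` with
`|q'| ≤ |q|` and `N (q' Θ - p') ≤ N (q Θ - p)` are `0` and `±(q, p)`. -/
def IsBest (N : Seminorm ℝ (Fin n → ℝ)) (Θ : Fin n → ℝ) (q : ℤ) (p : Fin n → ℤ) : Prop :=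
  q ≠ 0 ∧ ∀ (q' : ℤ) (p' : Fin n → ℤ), |q'| ≤ |q| → err N Θ q' p' ≤ err N Θ q p →
    (q' = 0 ∧ p' = 0) ∨ (q' = q ∧ p' = p) ∨ (q' = -q ∧ p' = -p)

/-- `M` is the absolute value of the denominator of some best approximation vector. -/
def IsBestDenominator (N : Seminorm ℝ (Fin n → ℝ)) (Θ : Fin n → ℝ) (M : ℕ) : Prop :=
  ∃ (q : ℤ) (p : Fin n → ℤ), IsBest N Θ q p ∧ q.natAbs = M

/-- `M_ν`, `ν = 1, 2, …`: the denominators of the best approximation vectors in increasing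
order. -/
noncomputable def M (N : Seminorm ℝ (Fin n → ℝ)) (Θ : Fin n → ℝ) (ν : ℕ) : ℕ :=
  Nat.nth (IsBestDenominator N Θ) (ν - 1)

/-- `G(Θ) = liminf M_ν ^ (1/ν)`. -/
noncomputable def G (N : Seminorm ℝ (Fin n → ℝ)) (Θ : Fin n → ℝ) : ℝ≥0∞ :=
  liminf (fun ν : ℕ => ENNReal.ofReal ((M N Θ ν : ℝ) ^ (1 / (ν : ℝ)))) atTop

/-- `g = inf G(Θ)` over all `Θ` satisfying (∗); `m = 1` and the norm `N` on `ℝⁿ`. -/
noncomputable def g (N : Seminorm ℝ (Fin n → ℝ)) : ℝ≥0∞ :=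
  ⨅ (Θ : Fin n → ℝ) (_ : Admissible Θ), G N Θ

end Pool.Agent.Work.MP_7453a1_nt_norm
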